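import Pool.Agent.Helper46.NU.Names

/-! # MP_1fe1ca_lc: packet FAM -/

namespace NU.PkFAM

open Pool.Agent.Helper97.Ku

theorem fam : G_FAM := by
  intro L _ ι x
  refine ⟨?_, ?_, ?_⟩
  · intro y
    show y.mem (BSet.mk ι x (fun _ => ⊤)) = _
    rw [BSet.mem_mk]
    exact iSup_congr fun i => top_inf_eq _
  · intro φ hφ
    rw [BSet.iInf_mem (famN x) φ hφ]
    exact iInf_congr fun i => top_himp
  · intro φ hφ
    rw [BSet.iSup_mem (famN x) φ hφ]
    exact iSup_congr fun i => top_inf_eq _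

end NU.PkFAM
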